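import Pool.Agent.V7H22.NP.Growth

/-!
# MP_f59665_co : the growth exponent of `n⁺` against `n⁻` is at least `8 / 3`
-/

set_option autoImplicit false

open Pool.Agent.R360.NP (npos nneg)
open Pool.Agent.V7H22.NP

namespace Pool.Agent.Results.MP_f59665_co.EightThirdsH22

/-- the positive terms (besides equality) -/
def pos : List (ℕ × ℕ) := [
  (0, 0), (0, 48), (0, 40), (0, 24), (0, 36), (0, 20), (0, 12), (0, 34), (0, 18), (0, 10),
  (0, 6), (0, 33), (0, 17), (0, 9), (0, 5), (0, 3), (1, 32), (2, 16), (3, 8), (3, 4),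
  (4, 2), (4, 1), (0, 60), (0, 54), (0, 57), (1, 38), (2, 25)]

/-- the negative terms -/
def neg : List (ℕ × ℕ) := [
  (0, 32), (0, 16), (0, 8), (0, 4), (0, 2), (0, 1), (4, 0), (0, 56), (0, 52), (0, 44),
  (0, 28), (0, 50), (0, 38), (0, 22), (0, 49), (0, 41), (0, 25), (0, 11), (0, 7), (1, 36),
  (1, 34), (1, 33), (2, 24), (2, 18), (2, 17), (3, 12), (3, 10), (3, 5)]

theorem cls : Pool.Agent.R360.NP.Cls 3 8 :=
  cls_of_cert 6 3 pos neg (by decide +kernel) (by decide +kernel) (by decide +kernel)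
    (by decide +kernel)

theorem result :
    (∃ C : ℕ, ∀ N : ℕ, 1 ≤ N → ∃ G : SimpleGraph (Fin (N ^ 8)),
      nneg G ≤ C * N ^ 3 ∧ N ^ 8 ≤ npos G + C * N ^ 3) ∧
    (∀ e : ℝ, e < 8 / 3 → ∀ C : ℝ, ∃ (n : ℕ) (G : SimpleGraph (Fin n)),
      0 < nneg G ∧ C * (nneg G : ℝ) ^ e < npos G) := by
  refine ⟨Pool.Agent.R360.NP.graph_of_cls cls, fun e he C => ?_⟩
  exact exponent_of_cls cls (by norm_num) (by norm_num) e (by push_cast; linarith) C

end Pool.Agent.Results.MP_f59665_co.EightThirdsH22
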