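import Pool.Agent.V7H22.NPU.Final

/-!
# MP_f59665_co : `n⁺ ≤ 4 n⁻ (2 (n⁻) ^ 2) ^ √(n⁻)` for every graph
-/

set_option autoImplicit false

open Pool.Agent.R360.NP (npos nneg)

namespace Pool.Agent.Results.MP_f59665_co.SubexponentialUpperH22

theorem result : ∀ (n : ℕ) (G : SimpleGraph (Fin n)),
    (npos G : ℝ) ≤ 4 * (nneg G : ℝ) * (2 * (nneg G : ℝ) ^ 2) ^ Real.sqrt (nneg G : ℝ) :=
  fun _ G => Pool.Agent.V7H22.NPU.upper G

end Pool.Agent.Results.MP_f59665_co.SubexponentialUpperH22
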